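import Pool.Agent.Q150.CGroupA

/-!
# Thin residually connected coset geometries of C-groups are flag-transitive
-/

namespace Pool.Agent.Results.MP_0d307c_co.FlagTransitive

open Q150.CGroup

universe u

/-- For every C-group `(G, {ρ_0, …, ρ_{r-1}})` of any rank `r` (`G` not necessarily finite), if
its coset geometry is thin and residually connected, then it is flag-transitive. -/
theorem result (G : Type u) [Group G] (r : ℕ) (ρ : Fin r → G) (hC : IsCGroup ρ)
    (hT : IsThin ρ) (hR : IsResiduallyConnected ρ) : IsFlagTransitive ρ :=
  main hC hT hR

end Pool.Agent.Results.MP_0d307c_co.FlagTransitive
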